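import Pool.Agent.helper81.WS.Spec

set_option autoImplicit false

/-! Row `ws:MOW`. -/

open Finset

namespace Pool.Agent.WS

open Module Pointwise

theorem MOW (hFIN : FIN_stmt) : MOW_stmt := by
  intro K ε hε
  obtain ⟨δ, p₀, hδ, hF⟩ := hFIN K ε hε
  refine ⟨δ, p₀, hδ, ?_⟩
  intro p _ hp A B C D a b c d hC hD hdet hcA hcB hK1 hK2 h1 h2 h3 h4 χ hχ β hβ
  have hn : ∀ u : ZMod p, ‖χ u‖ ≤ 1 := fun u => DirichletCharacter.norm_le_one χ u
  have key := hF p hp A B C D hC hD hK1 hK2 h1 h2 h3 h4 χ hχ (fun y => β y * χ ((c * (-y) + d)⁻¹)) (fun y => by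
    rw [norm_mul]
    exact mul_le_one₀ (hβ y) (norm_nonneg _) (hn _))
  refine le_trans (Finset.sum_le_sum fun x hx => ?_) key
  have hid : ∀ y ∈ B, β y * χ ((a * x + b) / (c * x + d) - (a * (-y) + b) / (c * (-y) + d)) =
      (χ (a * d - b * c) * χ ((c * x + d)⁻¹)) * ((β y * χ ((c * (-y) + d)⁻¹)) * χ (x + y)) := by
    intro y hy
    have hx0 := hcA x hx
    have hy0 := hcB y hy
    have e : (a * x + b) / (c * x + d) - (a * (-y) + b) / (c * (-y) + d) =
        (a * d - b * c) * (c * x + d)⁻¹ * ((c * (-y) + d)⁻¹ * (x + y)) := by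
      rw [div_sub_div _ _ hx0 hy0, div_eq_mul_inv, mul_inv]
      ring
    rw [e, map_mul, map_mul, map_mul]
    ring
  rw [Finset.sum_congr rfl hid, ← Finset.mul_sum, norm_mul]
  have h5 : ‖χ (a * d - b * c) * χ ((c * x + d)⁻¹)‖ ≤ 1 := by
    rw [norm_mul]
    exact mul_le_one₀ (hn _) (norm_nonneg _) (hn _)
  exact mul_le_of_le_one_left (norm_nonneg _) h5

end Pool.Agent.WS
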